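import Mathlib

set_option autoImplicit false
set_option linter.unusedVariables false
set_option linter.unusedSectionVars false

open Set Topology

universe u

namespace Pool.Agent.Results.MP_c8df5e_gt.ArbitraryProducts

/-- The specialization order: `x ≤ y` iff `x` lies in the closure of `{y}`. -/
def Le {X : Type u} [TopologicalSpace X] (x y : X) : Prop := x ∈ closure {y}

/-- Directed subsets for the specialization order. -/
def IsDirectedSet {X : Type u} [TopologicalSpace X] (D : Set X) : Prop :=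
  D.Nonempty ∧ ∀ a ∈ D, ∀ b ∈ D, ∃ c ∈ D, Le a c ∧ Le b c

/-- `s` is a supremum of `D` for the specialization order. -/
def IsSupremum {X : Type u} [TopologicalSpace X] (D : Set X) (s : X) : Prop :=
  (∀ d ∈ D, Le d s) ∧ ∀ t, (∀ d ∈ D, Le d t) → Le s t

/-- `d`-spaces: `T₀` spaces in which every directed set `D` has a supremum `s`, and every open
set containing `s` meets `D`. -/
def IsDSpace (X : Type u) [TopologicalSpace X] : Prop :=
  T0Space X ∧ ∀ D : Set X, IsDirectedSet D →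
    ∃ s, IsSupremum D s ∧ ∀ U, IsOpen U → s ∈ U → (D ∩ U).Nonempty

/-- `(Z, μ)` is a `d`-reflection of `X`. -/
def IsDReflection (X Z : Type u) [TopologicalSpace X] [TopologicalSpace Z] (μ : X → Z) : Prop :=
  IsDSpace Z ∧ Continuous μ ∧
    ∀ (Y : Type u) [TopologicalSpace Y], IsDSpace Y → ∀ f : X → Y, Continuous f →
      ∃! g : Z → Y, Continuous g ∧ g ∘ μ = f

/-! ### Basic facts -/

section basic

variable {X Y Z : Type u} [TopologicalSpace X] [TopologicalSpace Y] [TopologicalSpace Z]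

theorem le_iff {x y : X} : Le x y ↔ ∀ U, IsOpen U → x ∈ U → y ∈ U := by
  rw [Le, ← specializes_iff_mem_closure, specializes_iff_forall_open]

theorem le_refl' (x : X) : Le x x := le_iff.2 fun _ _ h => h

theorem le_trans' {x y z : X} (h1 : Le x y) (h2 : Le y z) : Le x z :=
  le_iff.2 fun U hU h => le_iff.1 h2 U hU (le_iff.1 h1 U hU h)

theorem le_map {f : X → Y} (hf : Continuous f) {x y : X} (h : Le x y) : Le (f x) (f y) :=
  le_iff.2 fun U hU hx => le_iff.1 h _ (hU.preimage hf) hx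

/-- The directed set `D` converges to `s` in the strongest sense: an open set contains `s` iff it
meets `D`. -/
def Lim (D : Set X) (s : X) : Prop := ∀ U, IsOpen U → (s ∈ U ↔ (D ∩ U).Nonempty)

theorem Lim.le {D : Set X} {s : X} (h : Lim D s) {d : X} (hd : d ∈ D) : Le d s :=
  le_iff.2 fun U hU hdU => (h U hU).2 ⟨d, hd, hdU⟩

theorem Lim.isSupremum {D : Set X} {s : X} (h : Lim D s) : IsSupremum D s := by
  refine ⟨fun d hd => h.le hd, fun t ht => le_iff.2 fun U hU hs => ?_⟩
  obtain ⟨d, hd, hdU⟩ := (h U hU).1 hs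
  exact le_iff.1 (ht d hd) U hU hdU

theorem isDSpace_iff : IsDSpace X ↔ T0Space X ∧ ∀ D : Set X, IsDirectedSet D → ∃ s, Lim D s := by
  constructor
  · rintro ⟨h0, h⟩
    refine ⟨h0, fun D hD => ?_⟩
    obtain ⟨s, hs, hs'⟩ := h D hD
    refine ⟨s, fun U hU => ⟨hs' U hU, ?_⟩⟩
    rintro ⟨d, hd, hdU⟩
    exact le_iff.1 (hs.1 d hd) U hU hdU
  · rintro ⟨h0, h⟩
    refine ⟨h0, fun D hD => ?_⟩
    obtain ⟨s, hs⟩ := h D hD
    exact ⟨s, hs.isSupremum, fun U hU hsU => (hs U hU).1 hsU⟩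

theorem lim_unique (h0 : T0Space X) {D : Set X} {s t : X} (hs : Lim D s) (ht : Lim D t) : s = t := by
  apply Inseparable.eq
  rw [inseparable_iff_forall_isOpen]
  intro U hU
  rw [hs U hU, ht U hU]

theorem IsDirectedSet.image {D : Set X} (hD : IsDirectedSet D) {f : X → Y} (hf : Continuous f) :
    IsDirectedSet (f '' D) := by
  refine ⟨hD.1.image f, ?_⟩
  rintro _ ⟨a, ha, rfl⟩ _ ⟨b, hb, rfl⟩
  obtain ⟨c, hc, h1, h2⟩ := hD.2 a ha b hb
  exact ⟨f c, ⟨c, hc, rfl⟩, le_map hf h1, le_map hf h2⟩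

theorem Lim.image {D : Set X} {s : X} (h : Lim D s) {f : X → Y} (hf : Continuous f) :
    Lim (f '' D) (f s) := by
  intro U hU
  have := h _ (hU.preimage hf)
  rw [mem_preimage] at this
  rw [this]
  constructor
  · rintro ⟨d, hd, hdU⟩
    exact ⟨f d, ⟨d, hd, rfl⟩, hdU⟩
  · rintro ⟨_, ⟨d, hd, rfl⟩, hdU⟩
    exact ⟨d, hd, hdU⟩

/-- Sets closed under directed suprema. -/
def DClosed (C : Set X) : Prop := ∀ D, D ⊆ C → IsDirectedSet D → ∀ s, Lim D s → s ∈ C

/-- The map `μ` generates `Z`: the only set which contains the range and is closed under directed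
suprema is the whole space. -/
def Gen (μ : X → Z) : Prop := ∀ C : Set Z, range μ ⊆ C → DClosed C → ∀ z, z ∈ C

/-- Every open set of `X` is the preimage of an open set of `Z`. -/
def Surj (μ : X → Z) : Prop := ∀ U : Set X, IsOpen U → ∃ V : Set Z, IsOpen V ∧ μ ⁻¹' V = U

theorem le_subtype {C : Set X} {a b : C} : Le a b ↔ Le (a : X) (b : X) := by
  rw [le_iff, le_iff]
  constructor
  · intro h U hU ha
    exact h (Subtype.val ⁻¹' U) (hU.preimage continuous_subtype_val) ha
  · intro h U hU ha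
    obtain ⟨V, hV, rfl⟩ := isOpen_induced_iff.1 hU
    exact h V hV ha

theorem DClosed.isDSpace (hX : IsDSpace X) {C : Set X} (hC : DClosed C) : IsDSpace C := by
  rw [isDSpace_iff] at hX ⊢
  have := hX.1
  refine ⟨inferInstance, fun D hD => ?_⟩
  have hD' : IsDirectedSet (Subtype.val '' D) := hD.image continuous_subtype_val
  obtain ⟨s, hs⟩ := hX.2 _ hD'
  have hsC : s ∈ C := hC _ (by rintro _ ⟨d, _, rfl⟩; exact d.2) hD' s hs
  refine ⟨⟨s, hsC⟩, fun U hU => ?_⟩
  obtain ⟨V, hV, rfl⟩ := isOpen_induced_iff.1 hU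
  rw [mem_preimage, hs V hV]
  constructor
  · rintro ⟨_, ⟨d, hd, rfl⟩, hdV⟩
    exact ⟨d, hd, hdV⟩
  · rintro ⟨d, hd, hdV⟩
    exact ⟨d, ⟨d, hd, rfl⟩, hdV⟩

/-- Open sets are determined by their preimages, if `μ` generates. -/
theorem Gen.open_ext {μ : X → Z} (hg : Gen μ) {U V : Set Z} (hU : IsOpen U) (hV : IsOpen V)
    (h : μ ⁻¹' U = μ ⁻¹' V) : U = V := by
  have := hg {z | z ∈ U ↔ z ∈ V} (by
    rintro _ ⟨x, rfl⟩
    show x ∈ μ ⁻¹' U ↔ x ∈ μ ⁻¹' V
    rw [h]) (by
    intro D hD _ s hs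
    show s ∈ U ↔ s ∈ V
    rw [hs U hU, hs V hV]
    constructor
    · rintro ⟨d, hd, hdU⟩
      exact ⟨d, hd, (hD hd).1 hdU⟩
    · rintro ⟨d, hd, hdU⟩
      exact ⟨d, hd, (hD hd).2 hdU⟩)
  ext z
  exact this z

theorem Gen.map_ext {μ : X → Z} (hg : Gen μ) (hY : T0Space Y) {f g : Z → Y} (hf : Continuous f)
    (hg' : Continuous g) (h : f ∘ μ = g ∘ μ) : f = g := by
  funext z
  apply Inseparable.eq
  rw [inseparable_iff_forall_isOpen]
  intro U hU
  have : f ⁻¹' U = g ⁻¹' U := by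
    apply hg.open_ext (hU.preimage hf) (hU.preimage hg')
    rw [← preimage_comp, ← preimage_comp, h]
  rw [← mem_preimage, this, mem_preimage]

/-- The characterization of `d`-reflections. -/
theorem isDReflection_of {μ : X → Z} (hZ : IsDSpace Z) (hμ : Continuous μ) (hs : Surj μ)
    (hg : Gen μ) : IsDReflection X Z μ := by
  refine ⟨hZ, hμ, fun Y _ hY f hf => ?_⟩
  have hZ' := isDSpace_iff.1 hZ
  have hY' := isDSpace_iff.1 hY
  have := hY'.1
  have hex : ∀ V : Set Y, ∃ V' : Set Z, IsOpen V → IsOpen V' ∧ μ ⁻¹' V' = f ⁻¹' V := by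
    intro V
    by_cases hV : IsOpen V
    · obtain ⟨V', h1, h2⟩ := hs _ (hV.preimage hf)
      exact ⟨V', fun _ => ⟨h1, h2⟩⟩
    · exact ⟨∅, fun h => absurd h hV⟩
  choose E hE using hex
  have hall : ∀ z : Z, ∃ y : Y, ∀ V, IsOpen V → (y ∈ V ↔ z ∈ E V) := by
    apply hg
    · rintro _ ⟨x, rfl⟩
      refine ⟨f x, fun V hV => ?_⟩
      have := (hE V hV).2
      rw [← mem_preimage, ← this, mem_preimage]
    · intro D hD hDd s hsD
      have hD' : ∀ d : Z, ∃ y : Y, d ∈ D → ∀ V, IsOpen V → (y ∈ V ↔ d ∈ E V) := by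
        intro d
        by_cases hd : d ∈ D
        · obtain ⟨y, hy⟩ := hD hd
          exact ⟨y, fun _ => hy⟩
        · obtain ⟨d0, hd0⟩ := hDd.1
          obtain ⟨y0, _⟩ := hD hd0
          exact ⟨y0, fun h => absurd h hd⟩
      choose φ hφ using hD'
      have hdir : IsDirectedSet (φ '' D) := by
        refine ⟨hDd.1.image φ, ?_⟩
        rintro _ ⟨a, ha, rfl⟩ _ ⟨b, hb, rfl⟩
        obtain ⟨c, hc, h1, h2⟩ := hDd.2 a ha b hb
        refine ⟨φ c, ⟨c, hc, rfl⟩, le_iff.2 fun U hU h => ?_, le_iff.2 fun U hU h => ?_⟩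
        · rw [hφ c hc U hU]
          exact le_iff.1 h1 _ (hE U hU).1 ((hφ a ha U hU).1 h)
        · rw [hφ c hc U hU]
          exact le_iff.1 h2 _ (hE U hU).1 ((hφ b hb U hU).1 h)
      obtain ⟨y, hy⟩ := hY'.2 _ hdir
      refine ⟨y, fun V hV => ?_⟩
      rw [hy V hV, hsD _ (hE V hV).1]
      constructor
      · rintro ⟨_, ⟨d, hd, rfl⟩, hdV⟩
        exact ⟨d, hd, (hφ d hd V hV).1 hdV⟩
      · rintro ⟨d, hd, hdV⟩
        exact ⟨φ d, ⟨d, hd, rfl⟩, (hφ d hd V hV).2 hdV⟩
  choose g hgV using hall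
  have hgc : Continuous g := by
    rw [continuous_def]
    intro V hV
    have : g ⁻¹' V = E V := by
      ext z
      exact hgV z V hV
    rw [this]
    exact (hE V hV).1
  have hgμ : g ∘ μ = f := by
    funext x
    apply Inseparable.eq
    rw [inseparable_iff_forall_isOpen]
    intro V hV
    rw [Function.comp_apply, hgV _ V hV, ← mem_preimage, (hE V hV).2, mem_preimage]
  refine ⟨g, ⟨hgc, hgμ⟩, ?_⟩
  rintro g' ⟨hg'c, hg'μ⟩
  exact hg.map_ext inferInstance hg'c hgc (by rw [hg'μ, hgμ])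

theorem IsDReflection.gen {μ : X → Z} (h : IsDReflection X Z μ) : Gen μ := by
  intro C hC hCd z
  obtain ⟨hZ, hμ, huniv⟩ := h
  have hCs : IsDSpace C := hCd.isDSpace hZ
  obtain ⟨g, ⟨hg, hgμ⟩, _⟩ := huniv C hCs (fun x => ⟨μ x, hC ⟨x, rfl⟩⟩) (by fun_prop)
  obtain ⟨k, _, hk⟩ := huniv Z hZ μ hμ
  have h1 : (Subtype.val ∘ g) = k := by
    apply hk
    refine ⟨continuous_subtype_val.comp hg, ?_⟩
    rw [Function.comp_assoc, hgμ]
    rfl
  have h2 : id = k := by
    apply hk
    exact ⟨continuous_id, rfl⟩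
  have h3 : (g z : Z) = z := by
    have := congrFun (h1.trans h2.symm) z
    simpa using this
  rw [← h3]
  exact (g z).2

theorem isDSpace_sierpinski : IsDSpace (ULift.{u} Prop) := by
  rw [isDSpace_iff]
  have h0 : T0Space (ULift.{u} Prop) := inferInstance
  refine ⟨h0, fun D hD => ?_⟩
  refine ⟨⟨∃ d ∈ D, d.down⟩, fun U hU => ?_⟩
  obtain ⟨V, hV, rfl⟩ := isOpen_induced_iff.1 hU
  obtain ⟨d0, hd0⟩ := hD.1
  by_cases hF : False ∈ V
  · have hV' : V = univ := by
      have := hV.mem_nhds hF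
      rwa [nhds_false, Filter.mem_top] at this
    subst hV'
    exact ⟨fun _ => ⟨d0, hd0, trivial⟩, fun _ => trivial⟩
  · by_cases hT : True ∈ V
    · have hiff : ∀ p : Prop, p ∈ V ↔ p := by
        intro p
        by_cases hp : p
        · simpa [hp] using hT
        · simpa [hp] using hF
      show (∃ d ∈ D, d.down) ∈ V ↔ _
      rw [hiff]
      constructor
      · rintro ⟨d, hd, h⟩
        exact ⟨d, hd, (hiff _).2 h⟩
      · rintro ⟨d, hd, h⟩
        exact ⟨d, hd, (hiff _).1 h⟩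
    · have hno : ∀ p : Prop, p ∉ V := by
        intro p
        by_cases hp : p
        · simpa [hp] using hT
        · simpa [hp] using hF
      exact ⟨fun h => absurd h (hno _), fun ⟨d, _, h⟩ => absurd h (hno _)⟩

theorem IsDReflection.surj {μ : X → Z} (h : IsDReflection X Z μ) : Surj μ := by
  intro U hU
  obtain ⟨g, ⟨hg, hgμ⟩, _⟩ := h.2.2 (ULift.{u} Prop) isDSpace_sierpinski
    (fun x => ⟨x ∈ U⟩) (continuous_uliftUp.comp (continuous_Prop.2 hU))
  refine ⟨{z | (g z).down}, ?_, ?_⟩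
  · exact continuous_Prop.1 (continuous_uliftDown.comp hg)
  · ext x
    have := congrArg ULift.down (congrFun hgμ x)
    simpa using this

/-- Uniqueness of `d`-reflections up to homeomorphism. -/
theorem IsDReflection.homeo {W : Type u} [TopologicalSpace W] {μ : X → Z} {ν : X → W}
    (h : IsDReflection X Z μ) (h' : IsDReflection X W ν) : Nonempty (W ≃ₜ Z) := by
  obtain ⟨f, ⟨hf, hfμ⟩, _⟩ := h.2.2 W h'.1 ν h'.2.1
  obtain ⟨g, ⟨hg, hgν⟩, _⟩ := h'.2.2 Z h.1 μ h.2.1
  have hfg : f ∘ g = id := by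
    apply h'.gen.map_ext h'.1.1 (hf.comp hg) continuous_id
    rw [Function.comp_assoc, hgν, hfμ]
    rfl
  have hgf : g ∘ f = id := by
    apply h.gen.map_ext h.1.1 (hg.comp hf) continuous_id
    rw [Function.comp_assoc, hfμ, hgν]
    rfl
  exact ⟨{ toFun := g, invFun := f, left_inv := fun x => congrFun hfg x,
           right_inv := fun x => congrFun hgf x, continuous_toFun := hg,
           continuous_invFun := hf }⟩

end basic

/-! ### Products -/

section prod

variable {I : Type u} {X Z : I → Type u} [∀ i, TopologicalSpace (X i)]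
  [∀ i, TopologicalSpace (Z i)]

theorem le_pi {x y : ∀ i, Z i} : Le x y ↔ ∀ i, Le (x i) (y i) := by
  simp only [Le, ← specializes_iff_mem_closure]
  exact specializes_pi

theorem isDSpace_pi (hZ : ∀ i, IsDSpace (Z i)) : IsDSpace (∀ i, Z i) := by
  classical
  have hZ' := fun i => isDSpace_iff.1 (hZ i)
  rw [isDSpace_iff]
  have := fun i => (hZ' i).1
  refine ⟨inferInstance, fun D hD => ?_⟩
  have hex : ∀ i, ∃ s, Lim ((fun z : ∀ i, Z i => z i) '' D) s :=
    fun i => (hZ' i).2 _ (hD.image (continuous_apply i))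
  choose s hs using hex
  have hle : ∀ d ∈ D, Le d s := fun d hd => le_pi.2 fun i => (hs i).le ⟨d, hd, rfl⟩
  refine ⟨s, fun U hU => ⟨fun hsU => ?_, fun ⟨d, hd, hdU⟩ => le_iff.1 (hle d hd) U hU hdU⟩⟩
  obtain ⟨F, V, hV, hVU⟩ := isOpen_pi_iff.1 hU s hsU
  have hfin : ∀ G : Finset I, G ⊆ F → ∃ d ∈ D, ∀ i ∈ G, d i ∈ V i := by
    intro G
    induction G using Finset.induction_on with
    | empty =>
      intro _
      obtain ⟨d, hd⟩ := hD.1
      exact ⟨d, hd, by simp⟩
    | insert a G ha ih =>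
      intro hG
      obtain ⟨d, hd, hdG⟩ := ih (fun i hi => hG (Finset.mem_insert_of_mem hi))
      have haF : a ∈ F := hG (Finset.mem_insert_self a G)
      obtain ⟨_, ⟨e, he, rfl⟩, heV⟩ := (hs a (V a) (hV a haF).1).1 (hV a haF).2
      obtain ⟨c, hc, h1, h2⟩ := hD.2 d hd e he
      refine ⟨c, hc, fun i hi => ?_⟩
      rcases Finset.mem_insert.1 hi with rfl | hi'
      · exact le_iff.1 (le_pi.1 h2 i) _ (hV i haF).1 heV
      · exact le_iff.1 (le_pi.1 h1 i) _ (hV i (hG hi)).1 (hdG i hi')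
  obtain ⟨d, hd, hdF⟩ := hfin F (Finset.Subset.refl F)
  exact ⟨d, hd, hVU (fun i hi => hdF i hi)⟩

theorem continuous_update' {I : Type u} {Z : I → Type u} [∀ i, TopologicalSpace (Z i)]
    [DecidableEq I] (z : ∀ i, Z i) (j : I) : Continuous (fun w : Z j => Function.update z j w) :=
  continuous_const.update j continuous_id

theorem gen_pi {μ : ∀ i, X i → Z i} (h : ∀ i, IsDReflection (X i) (Z i) (μ i)) :
    Gen (fun (x : ∀ i, X i) i => μ i (x i)) := by
  classical
  intro C hC hCd z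
  -- step 1: finitely many coordinates are arbitrary
  have step1 : ∀ (F : Finset I) (x : ∀ i, X i) (z : ∀ i, Z i),
      (∀ i, i ∉ F → z i = μ i (x i)) → z ∈ C := by
    intro F
    induction F using Finset.induction_on with
    | empty =>
      intro x z hz
      apply hC
      exact ⟨x, funext fun i => (hz i (by simp)).symm⟩
    | insert j F hj ih =>
      intro x z hz
      have key : ∀ w : Z j, Function.update z j w ∈ C := by
        apply (h j).gen {w | Function.update z j w ∈ C}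
        · rintro _ ⟨a, rfl⟩
          apply ih (Function.update x j a)
          intro i hi
          by_cases hij : i = j
          · subst hij
            simp
          · rw [Function.update_of_ne hij, Function.update_of_ne hij]
            exact hz i (by simp [hij, hi])
        · intro D hD hDd s hs
          apply hCd ((fun w : Z j => Function.update z j w) '' D)
          · rintro _ ⟨d, hd, rfl⟩
            exact hD hd
          · exact hDd.image (continuous_update' z j)
          · exact hs.image (continuous_update' z j)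
      have := key (z j)
      rwa [Function.update_eq_self] at this
  -- step 2: every point is above a point of the image
  have step2 : ∀ i (w : Z i), ∃ a : X i, Le (μ i a) w := by
    intro i
    apply (h i).gen
    · rintro _ ⟨a, rfl⟩
      exact ⟨a, le_refl' _⟩
    · intro D hD hDd s hs
      obtain ⟨d, hd⟩ := hDd.1
      obtain ⟨a, ha⟩ := hD hd
      exact ⟨a, le_trans' ha (hs.le hd)⟩
  choose a ha using step2
  -- step 3: a directed family of points converging to `z`
  set zF : Finset I → ∀ i, Z i := fun F i => if i ∈ F then z i else μ i (a i (z i)) with hzF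
  have hzFC : ∀ F, zF F ∈ C := by
    intro F
    apply step1 F (fun i => a i (z i))
    intro i hi
    simp [hzF, hi]
  have hmono : ∀ F G : Finset I, F ⊆ G → Le (zF F) (zF G) := by
    intro F G hFG
    rw [le_pi]
    intro i
    by_cases hi : i ∈ F
    · have hi' := hFG hi
      simp only [hzF, hi, hi', if_true]
      exact le_refl' _
    · by_cases hi' : i ∈ G
      · simp only [hzF, hi, hi', if_true, if_false]
        exact ha i (z i)
      · simp only [hzF, hi, hi', if_false]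
        exact le_refl' _
  apply hCd (range zF)
  · rintro _ ⟨F, rfl⟩
    exact hzFC F
  · refine ⟨⟨zF ∅, ⟨∅, rfl⟩⟩, ?_⟩
    rintro _ ⟨F, rfl⟩ _ ⟨G, rfl⟩
    exact ⟨zF (F ∪ G), ⟨_, rfl⟩, hmono _ _ Finset.subset_union_left,
      hmono _ _ Finset.subset_union_right⟩
  · intro U hU
    constructor
    · intro hz
      obtain ⟨F, V, hV, hVU⟩ := isOpen_pi_iff.1 hU z hz
      refine ⟨zF F, ⟨F, rfl⟩, hVU ?_⟩
      intro i hi
      have hi' : i ∈ F := hi
      simp only [hzF, hi', if_true]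
      exact (hV i hi').2
    · rintro ⟨_, ⟨F, rfl⟩, hFU⟩
      refine le_iff.1 (le_pi.2 fun i => ?_) U hU hFU
      by_cases hi : i ∈ F
      · simp only [hzF, hi, if_true]
        exact le_refl' _
      · simp only [hzF, hi, if_false]
        exact ha i (z i)

theorem surj_pi {μ : ∀ i, X i → Z i} (h : ∀ i, Surj (μ i)) :
    Surj (fun (x : ∀ i, X i) i => μ i (x i)) := by
  classical
  intro U hU
  -- for each point of `U` a box
  have hbox : ∀ x : U, ∃ W : Set (∀ i, Z i), IsOpen W ∧ (fun i => μ i (x.1 i)) ∈ W ∧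
      (fun (x : ∀ i, X i) i => μ i (x i)) ⁻¹' W ⊆ U := by
    rintro ⟨x, hx⟩
    obtain ⟨F, V, hV, hVU⟩ := isOpen_pi_iff.1 hU x hx
    have hex : ∀ i, ∃ V' : Set (Z i), i ∈ F → IsOpen V' ∧ μ i ⁻¹' V' = V i := by
      intro i
      by_cases hi : i ∈ F
      · obtain ⟨V', h1, h2⟩ := h i (V i) (hV i hi).1
        exact ⟨V', fun _ => ⟨h1, h2⟩⟩
      · exact ⟨∅, fun hi' => absurd hi' hi⟩
    choose V' hV' using hex
    refine ⟨(F : Set I).pi V', isOpen_set_pi F.finite_toSet fun i hi => (hV' i hi).1, ?_, ?_⟩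
    · intro i hi
      show x i ∈ μ i ⁻¹' V' i
      rw [(hV' i hi).2]
      exact (hV i hi).2
    · intro y hy
      apply hVU
      intro i hi
      rw [← (hV' i hi).2]
      exact hy i hi
  choose W hW using hbox
  refine ⟨⋃ x : U, W x, isOpen_iUnion fun x => (hW x).1, ?_⟩
  ext y
  simp only [mem_preimage, mem_iUnion]
  constructor
  · rintro ⟨x, hx⟩
    exact (hW x).2.2 hx
  · intro hy
    exact ⟨⟨y, hy⟩, (hW ⟨y, hy⟩).2.1⟩

theorem isDReflection_pi {μ : ∀ i, X i → Z i} (h : ∀ i, IsDReflection (X i) (Z i) (μ i)) :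
    IsDReflection (∀ i, X i) (∀ i, Z i) (fun x i => μ i (x i)) := by
  apply isDReflection_of (isDSpace_pi fun i => (h i).1)
  · exact continuous_pi fun i => (h i).2.1.comp (continuous_apply i)
  · exact surj_pi fun i => (h i).surj
  · exact gen_pi h

end prod

/-! ### Existence of `d`-reflections -/

section existence

variable (X : Type u) [TopologicalSpace X]

/-- The points of the sobrification: irreducible closed sets. -/
def S : Type u := {C : Set X // IsClosed C ∧ IsIrreducible C}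

variable {X}

/-- The open set of the sobrification given by an open set `U`. -/
def dia (U : Set X) : Set (S X) := {C | (C.1 ∩ U).Nonempty}

instance : TopologicalSpace (S X) where
  IsOpen W := ∃ U : Set X, IsOpen U ∧ W = dia U
  isOpen_univ := ⟨univ, isOpen_univ, by
    ext C
    have := C.2.2.1
    simp [dia, this]⟩
  isOpen_inter := by
    rintro _ _ ⟨U, hU, rfl⟩ ⟨V, hV, rfl⟩
    refine ⟨U ∩ V, hU.inter hV, ?_⟩
    ext C
    constructor
    · rintro ⟨h1, h2⟩
      exact C.2.2.2 U V hU hV h1 h2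
    · rintro ⟨x, hx, hxU, hxV⟩
      exact ⟨⟨x, hx, hxU⟩, ⟨x, hx, hxV⟩⟩
  isOpen_sUnion := by
    intro T hT
    refine ⟨⋃₀ {U | IsOpen U ∧ dia U ∈ T}, isOpen_sUnion fun U hU => hU.1, ?_⟩
    ext C
    constructor
    · rintro ⟨W, hW, hCW⟩
      obtain ⟨U, hU, rfl⟩ := hT W hW
      obtain ⟨x, hx, hxU⟩ := hCW
      exact ⟨x, hx, U, ⟨hU, hW⟩, hxU⟩
    · rintro ⟨x, hx, U, ⟨hU, hUT⟩, hxU⟩
      exact ⟨dia U, hUT, ⟨x, hx, hxU⟩⟩

theorem isOpen_S {W : Set (S X)} : IsOpen W ↔ ∃ U : Set X, IsOpen U ∧ W = dia U := Iff.rfl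

theorem le_S {C C' : S X} : Le C C' ↔ C.1 ⊆ C'.1 := by
  rw [le_iff]
  constructor
  · intro h x hx
    by_contra hx'
    have := h (dia C'.1ᶜ) ⟨_, C'.2.1.isOpen_compl, rfl⟩ ⟨x, hx, hx'⟩
    obtain ⟨y, hy, hy'⟩ := this
    exact hy' hy
  · rintro h _ ⟨U, hU, rfl⟩ ⟨x, hx, hxU⟩
    exact ⟨x, h hx, hxU⟩

theorem isDSpace_S : IsDSpace (S X) := by
  rw [isDSpace_iff]
  constructor
  · constructor
    intro C C' h
    have h1 : Le C C' := le_iff.2 fun U hU hC => (inseparable_iff_forall_isOpen.1 h U hU).1 hC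
    have h2 : Le C' C := le_iff.2 fun U hU hC => (inseparable_iff_forall_isOpen.1 h U hU).2 hC
    exact Subtype.ext (Subset.antisymm (le_S.1 h1) (le_S.1 h2))
  · intro D hD
    have hne : (⋃ C ∈ D, (C : S X).1).Nonempty := by
      obtain ⟨C, hC⟩ := hD.1
      obtain ⟨x, hx⟩ := C.2.2.1
      exact ⟨x, mem_iUnion₂.2 ⟨C, hC, hx⟩⟩
    have hirr : IsPreirreducible (⋃ C ∈ D, (C : S X).1) := by
      rintro U V hU hV ⟨x, hx, hxU⟩ ⟨y, hy, hyV⟩
      obtain ⟨C, hC, hxC⟩ := mem_iUnion₂.1 hx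
      obtain ⟨C', hC', hyC'⟩ := mem_iUnion₂.1 hy
      obtain ⟨C'', hC'', h1, h2⟩ := hD.2 C hC C' hC'
      obtain ⟨z, hz, hzUV⟩ := C''.2.2.2 U V hU hV ⟨x, le_S.1 h1 hxC, hxU⟩ ⟨y, le_S.1 h2 hyC', hyV⟩
      exact ⟨z, mem_iUnion₂.2 ⟨C'', hC'', hz⟩, hzUV⟩
    refine ⟨⟨closure (⋃ C ∈ D, (C : S X).1), isClosed_closure, ⟨hne.closure, hirr.closure⟩⟩, ?_⟩
    rintro _ ⟨U, hU, rfl⟩
    constructor
    · rintro ⟨x, hx, hxU⟩
      obtain ⟨y, hyU, hy⟩ := mem_closure_iff.1 hx U hU hxU
      obtain ⟨C, hC, hyC⟩ := mem_iUnion₂.1 hy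
      exact ⟨C, hC, ⟨y, hyC, hyU⟩⟩
    · rintro ⟨C, hC, ⟨x, hx, hxU⟩⟩
      exact ⟨x, subset_closure (mem_iUnion₂.2 ⟨C, hC, hx⟩), hxU⟩

/-- The embedding in the sobrification. -/
def eta (x : X) : S X := ⟨closure {x}, isClosed_closure, isIrreducible_singleton.closure⟩

theorem eta_preimage {U : Set X} (hU : IsOpen U) : eta ⁻¹' (dia U) = U := by
  ext x
  constructor
  · rintro ⟨y, hy, hyU⟩
    obtain ⟨z, hzU, hz⟩ := mem_closure_iff.1 hy U hU hyU
    rw [mem_singleton_iff] at hz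
    rwa [← hz]
  · intro hx
    exact ⟨x, subset_closure rfl, hx⟩

variable (X)

/-- The `d`-closure of the image of `X` in its sobrification. -/
def dcl : Set (S X) := {z | ∀ C : Set (S X), range eta ⊆ C → DClosed C → z ∈ C}

variable {X}

theorem dClosed_dcl : DClosed (dcl X) := by
  intro D hD hDd s hs C hC hCd
  exact hCd D (fun d hd => hD hd C hC hCd) hDd s hs

theorem exists_isDReflection : IsDReflection X (dcl X)
    (fun x => ⟨eta x, fun C hC _ => hC ⟨x, rfl⟩⟩) := by
  have heta : Continuous (eta : X → S X) := by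
    rw [continuous_def]
    rintro _ ⟨U, hU, rfl⟩
    rwa [eta_preimage hU]
  apply isDReflection_of (dClosed_dcl.isDSpace isDSpace_S)
  · fun_prop
  · intro U hU
    refine ⟨Subtype.val ⁻¹' (dia U), IsOpen.preimage continuous_subtype_val ⟨U, hU, rfl⟩, ?_⟩
    exact eta_preimage hU
  · intro C hC hCd z
    have := z.2 (Subtype.val '' C) (by
      rintro _ ⟨x, rfl⟩
      exact ⟨_, hC ⟨x, rfl⟩, rfl⟩) (by
      intro D hD hDd s hs
      have hDz : D ⊆ dcl X := fun d hd => by
        obtain ⟨c, _, rfl⟩ := hD hd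
        exact c.2
      have hsz : s ∈ dcl X := dClosed_dcl D hDz hDd s hs
      refine ⟨⟨s, hsz⟩, hCd (Subtype.val ⁻¹' D) ?_ ?_ _ ?_, rfl⟩
      · intro d hd
        obtain ⟨c, hc, hcd⟩ := hD hd
        rwa [Subtype.ext hcd] at hc
      · constructor
        · obtain ⟨d, hd⟩ := hDd.1
          exact ⟨⟨d, hDz hd⟩, hd⟩
        · rintro a ha b hb
          obtain ⟨c, hc, h1, h2⟩ := hDd.2 a ha b hb
          exact ⟨⟨c, hDz hc⟩, hc, le_subtype.2 h1, le_subtype.2 h2⟩
      · intro U hU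
        obtain ⟨V, hV, rfl⟩ := isOpen_induced_iff.1 hU
        rw [mem_preimage, hs V hV]
        constructor
        · rintro ⟨d, hd, hdV⟩
          exact ⟨⟨d, hDz hd⟩, hd, hdV⟩
        · rintro ⟨d, hd, hdV⟩
          exact ⟨d, hd, hdV⟩)
    obtain ⟨c, hc, hcz⟩ := this
    rwa [Subtype.ext hcz] at hc

end existence

/-- **The `d`-reflection preserves arbitrary products of `T₀` spaces.**  Every `T₀` space has a
`d`-reflection, and if `(Z i, μ i)` is a `d`-reflection of `X i` for every `i`, then the product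
of the maps `μ i` is a `d`-reflection of the product space; in particular every `d`-reflection of
the product of the `X i` is homeomorphic to the product of the `Z i`. -/
theorem result :
    (∀ (X : Type u) [TopologicalSpace X] [T0Space X],
      ∃ (Z : Type u) (_ : TopologicalSpace Z) (μ : X → Z), IsDReflection X Z μ) ∧
    ∀ (I : Type u) (X Z : I → Type u) [∀ i, TopologicalSpace (X i)]
      [∀ i, TopologicalSpace (Z i)] [∀ i, T0Space (X i)] (μ : ∀ i, X i → Z i),
      (∀ i, IsDReflection (X i) (Z i) (μ i)) →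
        IsDReflection (∀ i, X i) (∀ i, Z i) (fun x i => μ i (x i)) ∧
        ∀ (W : Type u) [TopologicalSpace W] (ν : (∀ i, X i) → W),
          IsDReflection (∀ i, X i) W ν → Nonempty (W ≃ₜ (∀ i, Z i)) := by
  refine ⟨fun X _ _ => ⟨dcl X, inferInstance, _, exists_isDReflection⟩, ?_⟩
  intro I X Z _ _ _ μ h
  exact ⟨isDReflection_pi h, fun W _ ν hν => (isDReflection_pi h).homeo hν⟩

end Pool.Agent.Results.MP_c8df5e_gt.ArbitraryProducts
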